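import Mathlib

/-!
# The extremal linear bound for `A_v(0,d)` fails

Binary words are lists of Booleans, `true` is the digit `1` and `false` the digit `0`. For the
pattern `v = 10000` and the difference `d = 2115 ≥ 2^(2|v|+1) = 2048` one has `A_v(0,d) = 11`, while
`C_v d + B_v = 2115/256 + 15/16 < 9.2`.
-/

set_option autoImplicit false

namespace Pool.Agent.Results.MP_6ec7bd_co.LinearBoundFails

/-- `|w|_v`: the number of (possibly overlapping) occurrences of the word `v` as a factor of `w`,
that is, of the positions `k` such that `v` is an initial segment of `w` with its first `k` letters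
removed. -/
def occ (v w : List Bool) : ℕ := ((List.range (w.length + 1)).filter (fun k => v.isPrefixOf (w.drop k))).length

/-- `[w]_2`: the integer that `w` represents in base 2, first letter most significant. -/
def value (w : List Bool) : ℕ := w.foldl (fun a b => 2 * a + b.toNat) 0

/-- `(n)_2`: the binary expansion of `n` without leading zeros, most significant digit first;
`(0)_2` is the empty word. -/
def bin (n : ℕ) : List Bool := (Nat.bits n).reverse

/-- the number `i` of leading zeros of `v` -/
def lead (v : List Bool) : ℕ := (v.takeWhile (fun b => !b)).length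

/-- the number `j` of trailing zeros of `v` -/
def trail (v : List Bool) : ℕ := lead v.reverse

/-- a word of `k` zeros -/
def zeros (k : ℕ) : List Bool := List.replicate k false

/-- `e_v(n) = |0^i (n)_2|_v` -/
def e (v : List Bool) (n : ℕ) : ℕ := occ v (zeros (lead v) ++ bin n)

/-- `A_v(0,d) = min {l ≥ 1 : e_v(l d) is odd}` -/
noncomputable def A (v : List Bool) (d : ℕ) : ℕ := sInf {l : ℕ | 1 ≤ l ∧ Odd (e v (l * d))}

/-- the pairs `(x, y)` of words of length `|v| - 1` with
`|0^i x|_v + |y x|_v + |y 0^j|_v` odd -/
def Pair (v x y : List Bool) : Prop :=
  x.length = v.length - 1 ∧ y.length = v.length - 1 ∧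
    (occ v (zeros (lead v) ++ x) + occ v (y ++ x) + occ v (y ++ zeros (trail v))) % 2 = 1

/-- `(x, y)` is the lexicographically least of these pairs -/
def LeastPair (v x y : List Bool) : Prop :=
  Pair v x y ∧ ∀ x' y' : List Bool, Pair v x' y' → x < x' ∨ (x = x' ∧ (y < y' ∨ y = y'))

/-- `C_v = 2^{-(|v|-1+j)} [x_min]_2` -/
def C (v x : List Bool) : ℚ := (value x : ℚ) / 2 ^ (v.length - 1 + trail v)

/-- `B_v = [y_min]_2 - 2^j C_v` -/
def B (v x y : List Bool) : ℚ := (value y : ℚ) - 2 ^ trail v * C v x

/-- the statement to be decided: for every binary word `v` of length at least `2`, containing a `1`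
and different from `11`, and every `d ≥ 2^(2|v|+1)`, one has `A_v(0,d) ≤ C_v d + B_v`, with equality
if and only if `d = 2^j (2^k + 1)` for some `k ≥ 2|v| - 2` -/
def Conjecture : Prop :=
  ∀ v : List Bool, 2 ≤ v.length → true ∈ v → v ≠ [true, true] →
    ∀ x y : List Bool, LeastPair v x y → ∀ d : ℕ, 2 ^ (2 * v.length + 1) ≤ d →
      (A v d : ℚ) ≤ C v x * d + B v x y ∧
      ((A v d : ℚ) = C v x * d + B v x y ↔
        ∃ k : ℕ, 2 * v.length - 2 ≤ k ∧ d = 2 ^ trail v * (2 ^ k + 1))

/-- the pattern `10000` -/
def v₀ : List Bool := [true, false, false, false, false]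

/-- all words of length `4`, in lexicographic order -/
def words4 : List (List Bool) :=
  [false, true].flatMap fun a => [false, true].flatMap fun b => [false, true].flatMap fun c =>
    [false, true].map fun d => [a, b, c, d]

lemma mem_words4 {x : List Bool} (h : x.length = 4) : x ∈ words4 := by
  match x, h with
  | [a, b, c, d], _ => revert a b c d; decide

/-- The least pair for `v = 10000` is `x = y = 0001`. -/
lemma leastPair : LeastPair v₀ [false, false, false, true] [false, false, false, true] := by
  refine ⟨⟨rfl, rfl, by decide⟩, ?_⟩
  have key : ∀ x' ∈ words4, ∀ y' ∈ words4,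
      (occ v₀ (zeros (lead v₀) ++ x') + occ v₀ (y' ++ x') + occ v₀ (y' ++ zeros (trail v₀))) % 2
        = 1 →
      [false, false, false, true] < x' ∨
        ([false, false, false, true] = x' ∧
          ([false, false, false, true] < y' ∨ [false, false, false, true] = y')) := by
    decide +kernel
  intro x' y' h
  exact key x' (mem_words4 h.1) y' (mem_words4 h.2.1) h.2.2

lemma A_ge : 11 ≤ A v₀ 2115 := by
  unfold A
  have h11 : 11 ∈ {l : ℕ | 1 ≤ l ∧ Odd (e v₀ (l * 2115))} := by
    refine ⟨by norm_num, ?_⟩
    rw [Nat.odd_iff]
    decide +kernel
  apply le_csInf ⟨11, h11⟩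
  rintro l ⟨h1, h2⟩
  by_contra hlt
  push Not at hlt
  rw [Nat.odd_iff] at h2
  have key : ∀ l < 11, 1 ≤ l → ¬ e v₀ (l * 2115) % 2 = 1 := by decide +kernel
  exact key l hlt h1 h2

/-- For `v = 10000` the least pair is `(0001, 0001)`, and for `d = 2115 ≥ 2^(2|v|+1)` one has
`A_v(0,d) > C_v d + B_v`. In particular the conjectured statement is false. -/
theorem result :
    (LeastPair [true, false, false, false, false] [false, false, false, true]
        [false, false, false, true] ∧
      2 ^ (2 * 5 + 1) ≤ 2115 ∧
      C [true, false, false, false, false] [false, false, false, true] * 2115 +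
        B [true, false, false, false, false] [false, false, false, true]
          [false, false, false, true] < (A [true, false, false, false, false] 2115 : ℚ)) ∧
    ¬ Conjecture := by
  have hlt : C [true, false, false, false, false] [false, false, false, true] * 2115 +
        B [true, false, false, false, false] [false, false, false, true]
          [false, false, false, true] < (A [true, false, false, false, false] 2115 : ℚ) := by
    have h1 : C [true, false, false, false, false] [false, false, false, true] * 2115 +
        B [true, false, false, false, false] [false, false, false, true]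
          [false, false, false, true] < 11 := by
      unfold B C
      have h2 : value [false, false, false, true] = 1 := by decide
      have h3 : trail [true, false, false, false, false] = 4 := by decide
      rw [h2, h3]
      norm_num
    have h4 : (11 : ℚ) ≤ (A [true, false, false, false, false] 2115 : ℚ) := by
      exact_mod_cast A_ge
    exact lt_of_lt_of_le h1 h4
  refine ⟨⟨leastPair, by norm_num, hlt⟩, ?_⟩
  intro hC
  have h := (hC [true, false, false, false, false] (by decide) (by decide) (by decide)
    [false, false, false, true] [false, false, false, true] leastPair 2115 (by norm_num)).1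
  push_cast at h
  exact absurd hlt (not_lt.mpr h)

end Pool.Agent.Results.MP_6ec7bd_co.LinearBoundFails
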